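import Pool.Agent.H82R2.UPG.Main
import Pool.Agent.H82R2.UPG.Init
import Pool.Agent.H82R2.UPG.Loc
import Pool.Agent.H82R2.UPG.Perm
import Pool.Agent.H82R2.UPG.Queue
import Pool.Agent.H82R2.UPG.WParEx

/-!
# A strong universal pattern generator (MP_903cf7_lc)
-/

namespace Pool.Agent.Results.MP_903cf7_lc.StrongGenerator

/-- The one-dimensional cellular automaton with radius `r` and local rule `f`:
`F(x)_i = f (x_{i-r}, …, x_{i+r})`. -/
def CA {S : Type} (r : ℕ) (f : (Fin (2 * r + 1) → S) → S) (x : ℤ → S) : ℤ → S :=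
  fun i => f (fun a => x (i + (a : ℤ) - r))

/-- The word `w` appears at position `i` in the configuration `y`. -/
def Appears {S : Type} (w : List S) (i : ℤ) (y : ℤ → S) : Prop :=
  ∀ (j : ℕ) (hj : j < w.length), y (i + j) = w[j]

open H82R2.UPG in
theorem result : ∃ (S : Type) (_ : Finite S) (zero : S) (r : ℕ) (f : (Fin (2 * r + 1) → S) → S)
    (x : ℤ → S), f (fun _ => zero) = zero ∧ {i | x i ≠ zero}.Finite ∧
      (∀ (w : List S) (i : ℤ), ∃ n : ℕ, Appears w i ((CA r f)^[n] x)) := by
  obtain ⟨p⟩ := exists_WPar_of lhs_injective rhs_injective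
    (fun R Q _ f g hf hg => exists_perm f g hf hg) exists_queue
  have := p.finW
  obtain ⟨f, hf⟩ := F_local p.toPar (none, p.cs .o, p.cc .o, p.cs .o)
  obtain ⟨x, hx1, hx2⟩ := exists_init p
  have hF : CA 3 f = F p.toPar := by
    funext x i
    exact (hf x i).symm
  refine ⟨St p.toPar, inferInstance, (none, p.cs .o, p.cc .o, p.cs .o), 3, f, x, ?_, hx1, ?_⟩
  · have h := hf (fun _ => (none, p.cs .o, p.cc .o, p.cs .o)) 0
    rw [F_const] at h
    exact h.symm
  · intro w i
    rw [hF]
    exact main x hx2 w i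

end Pool.Agent.Results.MP_903cf7_lc.StrongGenerator
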